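import Pool.Agent.H.MP_0cad2f_co.helper47.Defs

/-!
The flux of the objective through a facet of a normal cone, and the dual vectors of the
constraints which a basis shares with a well-conditioned one.
-/

set_option autoImplicit false

namespace Pool.Agent.H.MP_0cad2f_co.helper47

open MeasureTheory ProbabilityTheory Matrix Finset
open scoped NNReal ENNReal Pointwise

variable {n d : ℕ}

theorem continuous_dot_add (y c : Fin d → ℝ) :
    Continuous fun p : (Fin d → ℝ) × ℝ => y ⬝ᵥ (p.1 + p.2 • c) := by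
  unfold dotProduct
  simp only [Pi.add_apply, Pi.smul_apply, smul_eq_mul]
  fun_prop

theorem isClosed_inCone (a : Fin n → Fin d → ℝ) (B : Idx n d) (c : Fin d → ℝ) :
    IsClosed {p : (Fin d → ℝ) × ℝ | InCone a B (p.1 + p.2 • c)} := by
  simp only [InCone, Set.ofPred_forall]
  exact isClosed_iInter fun k => isClosed_le continuous_const (continuous_dot_add _ c)

theorem isClosed_hit (a : Fin n → Fin d → ℝ) (B : Idx n d) (k : Fin d) (c : Fin d → ℝ) (M : ℝ) :
    IsClosed {X : Fin d → ℝ | Hit a B k c M X} := by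
  have h1 : IsClosed {p : (Fin d → ℝ) × Set.Icc (0 : ℝ) M |
      InCone a B (p.1 + (p.2 : ℝ) • c) ∧ nu a B k ⬝ᵥ (p.1 + (p.2 : ℝ) • c) = 0} := by
    have hc : Continuous fun p : (Fin d → ℝ) × Set.Icc (0 : ℝ) M => (p.1, (p.2 : ℝ)) := by
      fun_prop
    refine IsClosed.inter ((isClosed_inCone a B c).preimage hc) ?_
    exact isClosed_eq ((continuous_dot_add (nu a B k) c).comp hc) continuous_const
  have h2 := isClosedMap_fst_of_compactSpace (X := Fin d → ℝ) (Y := Set.Icc (0 : ℝ) M) _ h1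
  convert h2 using 1
  ext X
  simp only [Hit, Set.mem_ofPred_eq, Set.mem_image, Prod.exists, exists_and_right,
    exists_eq_right, Subtype.exists]
  constructor
  · rintro ⟨μ, hμ, h3, h4⟩
    exact ⟨μ, ⟨hμ, h3⟩, h4⟩
  · rintro ⟨μ, ⟨hμ, h3⟩, h4⟩
    exact ⟨μ, hμ, h3, h4⟩

theorem volume_image_affine (s : Set ℝ) (t γ : ℝ) :
    volume ((fun μ : ℝ => t + μ * γ) '' s) = ENNReal.ofReal |γ| * volume s := by
  have h1 : (fun μ : ℝ => t + μ * γ) '' s = (fun x => t + x) '' (γ • s) := by
    rw [← Set.image_smul, Set.image_image]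
    simp only [smul_eq_mul, mul_comm]
  rw [h1, Set.image_add_left, measure_preimage_add, Measure.addHaar_smul]
  simp

/-- The flux through a facet of a cone. -/
theorem flux {a : Fin n → Fin d → ℝ} {B : Idx n d} (hdet : (mat a B).det ≠ 0) (k : Fin d)
    {A : ℝ} (hA : 0 < A) (hb : ‖a (B k)‖ ≤ A) (c p : Fin d → ℝ) {M R : ℝ} :
    volume {X : Fin d → ℝ | ‖X‖ ≤ R ∧ Hit a B k c M (X + p)} ≤
      ENNReal.ofReal (A * |nu a B k ⬝ᵥ c|) *
        ∫⁻ μ in Set.Icc 0 M,
          volume {X : Fin d → ℝ | ‖X‖ ≤ R + 1 ∧ InCone a B (X + p + μ • c)} := by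
  set b := a (B k) with hbdef
  set ν := nu a B k with hν
  set E : Set (Fin d → ℝ) := {X | ‖X‖ ≤ R ∧ Hit a B k c M (X + p)} with hE
  have hEm : MeasurableSet E :=
    ((isClosed_le continuous_norm continuous_const).inter
      ((isClosed_hit a B k c M).preimage (continuous_add_const p))).measurableSet
  have hνb : ν ⬝ᵥ b = 1 := by rw [dotProduct_comm]; exact dot_nu_self hdet k
  set S : Set ((Fin d → ℝ) × ℝ) := {q | ‖q.1‖ ≤ R + 1 ∧ InCone a B (q.1 + p + q.2 • c)} with hS
  have hSm : MeasurableSet S := by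
    have hc : Continuous fun q : (Fin d → ℝ) × ℝ => (q.1 + p, q.2) := by fun_prop
    exact ((isClosed_le (continuous_norm.comp continuous_fst) continuous_const).inter
      ((isClosed_inCone a B c).preimage hc)).measurableSet
  -- the left hand side, averaged over translations
  have h1 : ENNReal.ofReal (1 / A) * volume E =
      ∫⁻ y in Set.Icc (0 : ℝ) (1 / A), ∫⁻ X : Fin d → ℝ, E.indicator 1 (X - y • b) := by
    have h2 : ∀ y : ℝ, ∫⁻ X : Fin d → ℝ, E.indicator (1 : (Fin d → ℝ) → ℝ≥0∞) (X - y • b) =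
        volume E := by
      intro y
      rw [lintegral_sub_right_eq_self (fun X => E.indicator (1 : (Fin d → ℝ) → ℝ≥0∞) X) (y • b),
        lintegral_indicator_one hEm]
    simp only [h2]
    rw [lintegral_const, Measure.restrict_apply_univ, Real.volume_Icc, sub_zero, mul_comm]
  have h3 : ∫⁻ y in Set.Icc (0 : ℝ) (1 / A), ∫⁻ X : Fin d → ℝ, E.indicator 1 (X - y • b) =
      ∫⁻ X : Fin d → ℝ, ∫⁻ y in Set.Icc (0 : ℝ) (1 / A), E.indicator 1 (X - y • b) := by
    apply lintegral_lintegral_swap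
    apply Measurable.aemeasurable
    exact (measurable_one.indicator hEm).comp (by fun_prop)
  have h4 : ∀ X : Fin d → ℝ, ∫⁻ y in Set.Icc (0 : ℝ) (1 / A),
      E.indicator (1 : (Fin d → ℝ) → ℝ≥0∞) (X - y • b) ≤
      ENNReal.ofReal |ν ⬝ᵥ c| * ∫⁻ μ in Set.Icc (0 : ℝ) M, S.indicator 1 (X, μ) := by
    intro X
    set W : Set ℝ := {μ | μ ∈ Set.Icc (0 : ℝ) M ∧ (X, μ) ∈ S} with hW
    have h5 : ∫⁻ μ in Set.Icc (0 : ℝ) M, S.indicator (1 : (Fin d → ℝ) × ℝ → ℝ≥0∞) (X, μ) =
        volume W := by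
      have h6 : MeasurableSet {μ : ℝ | (X, μ) ∈ S} := by
        have : Measurable fun μ : ℝ => (X, μ) := by fun_prop
        exact this hSm
      have h7 : (fun μ : ℝ => S.indicator (1 : (Fin d → ℝ) × ℝ → ℝ≥0∞) (X, μ)) =
          {μ : ℝ | (X, μ) ∈ S}.indicator 1 := rfl
      rw [h7, lintegral_indicator_one h6, Measure.restrict_apply h6]
      congr 1
      ext μ
      simp only [hW, Set.mem_inter_iff, Set.mem_ofPred_eq, and_comm]
    have h8 : ∫⁻ y in Set.Icc (0 : ℝ) (1 / A),
        E.indicator (1 : (Fin d → ℝ) → ℝ≥0∞) (X - y • b) ≤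
        volume ((fun μ : ℝ => ν ⬝ᵥ (X + p) + μ * (ν ⬝ᵥ c)) '' W) := by
      have h9 : MeasurableSet {y : ℝ | X - y • b ∈ E} := by
        have : Measurable fun y : ℝ => X - y • b := by fun_prop
        exact this hEm
      have h10 : (fun y : ℝ => E.indicator (1 : (Fin d → ℝ) → ℝ≥0∞) (X - y • b)) =
          {y : ℝ | X - y • b ∈ E}.indicator 1 := rfl
      rw [h10, lintegral_indicator_one h9, Measure.restrict_apply h9]
      apply measure_mono
      rintro y ⟨hyE, hy⟩
      obtain ⟨hyn, μ, hμ, hcone, hzero⟩ := hyE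
      have hXμ : InCone a B (X + p + μ • c) := by
        intro k'
        have h11 := hcone k'
        have h12 : X + p + μ • c = (X - y • b + p + μ • c) + y • b := by abel
        rw [h12, dotProduct_add, dotProduct_smul, smul_eq_mul, dotProduct_comm _ b, hbdef,
          dot_nu hdet]
        have : 0 ≤ y * (if k = k' then 1 else 0 : ℝ) := by
          refine mul_nonneg hy.1 ?_
          split_ifs <;> norm_num
        linarith
      refine ⟨μ, ⟨hμ, ?_, hXμ⟩, ?_⟩
      · have h13 : ‖X‖ ≤ ‖X - y • b‖ + ‖y • b‖ := by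
          have := norm_add_le (X - y • b) (y • b)
          rwa [sub_add_cancel] at this
        have h14 : ‖y • b‖ ≤ 1 := by
          rw [norm_smul, Real.norm_eq_abs, abs_of_nonneg hy.1]
          calc y * ‖b‖ ≤ 1 / A * A := mul_le_mul hy.2 hb (norm_nonneg b) (by positivity)
            _ = 1 := by field_simp
        simp only at h13 ⊢
        linarith
      · have h15 : ν ⬝ᵥ (X - y • b + p + μ • c) = 0 := hzero
        rw [dotProduct_add, dotProduct_add, dotProduct_sub, dotProduct_smul, dotProduct_smul,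
          smul_eq_mul, smul_eq_mul, hνb] at h15
        simp only [dotProduct_add]
        linarith
    rw [h5]
    exact h8.trans_eq (volume_image_affine W _ _)
  have h16 : ∫⁻ X : Fin d → ℝ, ∫⁻ μ in Set.Icc (0 : ℝ) M, S.indicator 1 (X, μ) =
      ∫⁻ μ in Set.Icc 0 M,
        volume {X : Fin d → ℝ | ‖X‖ ≤ R + 1 ∧ InCone a B (X + p + μ • c)} := by
    rw [lintegral_lintegral_swap]
    · refine lintegral_congr fun μ => ?_
      have h6 : MeasurableSet {X : Fin d → ℝ | ‖X‖ ≤ R + 1 ∧ InCone a B (X + p + μ • c)} := by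
        have : Measurable fun X : Fin d → ℝ => (X, μ) := by fun_prop
        exact this hSm
      rw [← lintegral_indicator_one h6]
      rfl
    · apply Measurable.aemeasurable
      exact (measurable_one.indicator hSm).comp (by fun_prop)
  have h17 : ENNReal.ofReal (1 / A) * volume E ≤ ENNReal.ofReal |ν ⬝ᵥ c| *
      ∫⁻ μ in Set.Icc 0 M,
        volume {X : Fin d → ℝ | ‖X‖ ≤ R + 1 ∧ InCone a B (X + p + μ • c)} := by
    rw [h1, h3, ← h16]
    refine (lintegral_mono h4).trans_eq ?_
    rw [lintegral_const_mul']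
    simp
  have h18 : volume E = ENNReal.ofReal A * (ENNReal.ofReal (1 / A) * volume E) := by
    rw [← mul_assoc, ← ENNReal.ofReal_mul hA.le, mul_one_div_cancel hA.ne', ENNReal.ofReal_one,
      one_mul]
  rw [h18, ENNReal.ofReal_mul hA.le, mul_assoc]
  gcongr

/-- Dual vectors of old indices. -/
theorem nu_old {a : Fin n → Fin d → ℝ} {I B : Idx n d} (hI : (mat a I).det ≠ 0)
    (hB : (mat a B).det ≠ 0) {A T : ℝ} (hT : ∀ k, n2 (nu a I k) ≤ T) (ha : ∀ i, n2 (a i) ≤ A)
    (k : Fin d) (hk : B k ∈ Set.range I) :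
    n2 (nu a B k) ≤ T + A * T * ∑ m with B m ∉ Set.range I, n2 (nu a B m) := by
  classical
  obtain ⟨l, hl⟩ := hk
  have hT0 : 0 ≤ T := (n2_nonneg _).trans (hT l)
  set x := nu a I l with hx
  have h1 := sum_smul_nu hB x
  rw [← Finset.sum_filter_add_sum_filter_not Finset.univ (fun m => B m ∈ Set.range I)] at h1
  have h2 : ∑ m with B m ∈ Set.range I, (a (B m) ⬝ᵥ x) • nu a B m = nu a B k := by
    rw [Finset.sum_eq_single k]
    · rw [← hl, hx, dot_nu_self hI, one_smul]
    · intro m hm hmk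
      rw [Finset.mem_filter] at hm
      obtain ⟨l', hl'⟩ := hm.2
      have : l' ≠ l := by
        rintro rfl
        exact hmk (B.injective (hl'.symm.trans hl))
      rw [← hl', hx, dot_nu_ne hI this, zero_smul]
    · intro hk'
      exact absurd (Finset.mem_filter.mpr ⟨Finset.mem_univ _, ⟨l, hl⟩⟩) hk'
  rw [h2] at h1
  have h3 : nu a B k = x - ∑ m with B m ∉ Set.range I, (a (B m) ⬝ᵥ x) • nu a B m := by
    exact eq_sub_of_add_eq h1
  rw [h3]
  refine (n2_sub_le _ _).trans ?_
  refine add_le_add (hT l) ((n2_sum_le _ _).trans ?_)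
  rw [Finset.mul_sum]
  refine Finset.sum_le_sum fun m _ => ?_
  rw [n2_smul]
  have h4 : |a (B m) ⬝ᵥ x| ≤ A * T :=
    (abs_dot_le _ _).trans (mul_le_mul (ha _) (hT l) (n2_nonneg _) ((n2_nonneg _).trans (ha (B m))))
  exact mul_le_mul_of_nonneg_right h4 (n2_nonneg _)

end Pool.Agent.H.MP_0cad2f_co.helper47
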