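import Pool.Agent.H.MP_0cad2f_co.helper47.Defs

/-!
The objectives `X + L • aG + μ • cI` and the regular event.
-/

set_option autoImplicit false

namespace Pool.Agent.H.MP_0cad2f_co.helper47

open MeasureTheory ProbabilityTheory Matrix Finset
open scoped NNReal ENNReal

variable {n d : ℕ}

/-- The constraints in `G` span robustly. -/
def Spans (a : Fin n → Fin d → ℝ) (G : Finset (Fin n)) (T : ℝ) : Prop :=
  ∀ x : Fin d → ℝ, n2 x ≤ T * ∑ i ∈ G, |a i ⬝ᵥ x|

/-- The common objective. -/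
def aG (a : Fin n → Fin d → ℝ) (G : Finset (Fin n)) : Fin d → ℝ := ∑ i ∈ G, a i

/-- The objective of the basis `I`. -/
def cI (a : Fin n → Fin d → ℝ) (I : Idx n d) : Fin d → ℝ := ∑ k, a (I k)

/-- The deterministic part of the objectives. -/
def obj (a : Fin n → Fin d → ℝ) (G : Finset (Fin n)) (I : Idx n d) (L μ : ℝ) : Fin d → ℝ :=
  L • aG a G + μ • cI a I

/-- The volume of the part of a cube which lies in a translated normal cone. -/
noncomputable def coneVol (a : Fin n → Fin d → ℝ) (B : Idx n d) (p : Fin d → ℝ) (R : ℝ) :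
    ℝ≥0∞ :=
  volume {X : Fin d → ℝ | ‖X‖ ≤ R ∧ InCone a B (X + p)}

/-- The volume of a cube. -/
noncomputable def cubeVol (d : ℕ) (R : ℝ) : ℝ≥0∞ := volume {X : Fin d → ℝ | ‖X‖ ≤ R}

/-- The regular event for the basis `I`. -/
structure Reg (c a : Fin n → Fin d → ℝ) (G : Finset (Fin n)) (I : Idx n d) (Rg ρ₁ T : ℝ) :
    Prop where
  near : ∀ i, n2 (a i - c i) ≤ Rg
  good : Good a I
  vtx_le : n2 (vtx a I) ≤ ρ₁
  nu_le : ∀ k, n2 (nu a I k) ≤ T
  spans : Spans a G T

open Classical in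
/-- The flux bound for the number of facets met on the way from `I`. -/
noncomputable def fluxSum (a : Fin n → Fin d → ℝ) (G : Finset (Fin n)) (I : Idx n d)
    (A L M R : ℝ) : ℝ≥0∞ :=
  ∑ B : Idx n d, if Good a B then
    (∑ k : Fin d, ENNReal.ofReal (A * |nu a B k ⬝ᵥ cI a I|)) *
      ∫⁻ μ in Set.Icc 0 M, coneVol a B (obj a G I L μ) (R + 1) else 0

/-- The largest number of vertices in a ball of radius `D` of the edge graph. -/
noncomputable def ballCount (a : Fin n → Fin d → ℝ) (D : ℝ) : ℝ≥0∞ :=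
  ⨆ v₀ : Vert a,
    ((({v : Vert a | ((graph a).edist v₀ v : ℝ≥0∞) ≤ ENNReal.ofReal D}).encard : ℕ∞) : ℝ≥0∞)

end Pool.Agent.H.MP_0cad2f_co.helper47
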