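import Pool.Agent.H.MP_0cad2f_co.helper47.PointW
import Pool.Agent.H.MP_0cad2f_co.helper29.Exist
import Pool.Agent.H.MP_0cad2f_co.helper29.HitInt
import Pool.Agent.H.MP_0cad2f_co.helper35.Params10
import Pool.Agent.H.MP_0cad2f_co.helper35.Cube
import Pool.Agent.H.MP_0cad2f_co.helper39.Bad2
import Pool.Agent.H.MP_0cad2f_co.helper96.Meas2
import Pool.Agent.H.MP_0cad2f_co.helper11.One
import Pool.Agent.H.MP_0cad2f_co.h13.Expect

/-!
Assembly: in the mean all but a small fraction of the vertices lie in one ball of the edge graph.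
-/

set_option autoImplicit false

namespace Pool.Agent.H.MP_0cad2f_co.helper47

open MeasureTheory ProbabilityTheory Matrix Finset
open scoped NNReal ENNReal
open Pool.Agent.H.MP_0cad2f_co.helper11.TD (ae_simple measurableSet_good edist_one)
open Pool.Agent.H.MP_0cad2f_co.helper29 (ae_exists_good cubeVol_ne_zero cubeVol_ne_top
  lintegral_hits_le)
open Pool.Agent.H.MP_0cad2f_co.helper35 (cubeVol_ratio params10)
open Pool.Agent.H.MP_0cad2f_co.h13 (lintegral_fluxSum_le)
open Pool.Agent.H.MP_0cad2f_co.helper39 (bad_bound)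
open Pool.Agent.H.MP_0cad2f_co.helper96 (measurableSet_reg measurable_fluxSum)

variable {n d : ℕ}

/-- The expected weight of the vertices. -/
noncomputable def meanW (c : Fin n → Fin d → ℝ) (σ : ℝ) (W : Set (Fin n) → ℝ≥0∞) : ℝ≥0∞ :=
  ∫⁻ a, ∑' v : Vert a, W (tightSet a v) ∂(noise c σ)

open Classical in
theorem meanW_eq (c : Fin n → Fin d → ℝ) {σ : ℝ} (hσ : 0 < σ) (W : Set (Fin n) → ℝ≥0∞) :
    meanW c σ W = ∑ I : Idx n d, W (Set.range I) * noise c σ {a | Good a I} := by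
  rw [meanW]
  have h1 : ∫⁻ a, ∑' v : Vert a, W (tightSet a v) ∂(noise c σ) =
      ∫⁻ a, ∑ I : Idx n d, (if Good a I then W (Set.range I) else 0) ∂(noise c σ) :=
    lintegral_congr_ae ((ae_simple c hσ).mono fun a ha => tsum_vert ha W)
  rw [h1, lintegral_finsetSum']
  · refine Finset.sum_congr rfl fun I _ => ?_
    have h2 : (fun a : Fin n → Fin d → ℝ => if Good a I then W (Set.range I) else 0) =
        {a | Good a I}.indicator fun _ => W (Set.range I) := by
      ext a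
      simp [Set.indicator_apply]
    rw [h2, lintegral_indicator_const (measurableSet_good I)]
  · intro I _
    exact (Measurable.ite (measurableSet_good I) measurable_const measurable_const).aemeasurable

theorem card_idx_le : ((Fintype.card (Idx n d) : ℕ) : ℝ) ≤ (n : ℝ) ^ d := by
  have h : Fintype.card (Idx n d) ≤ Fintype.card (Fin d → Fin n) :=
    Fintype.card_le_of_injective (fun B : Idx n d => (B : Fin d → Fin n))
      (fun B B' h => DFunLike.coe_injective h)
  rw [Fintype.card_fun, Fintype.card_fin, Fintype.card_fin] at h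
  exact_mod_cast h

theorem one_le_meanW (c : Fin n → Fin d → ℝ) {σ : ℝ} (hσ : 0 < σ) (hd : 1 ≤ d)
    (hn : d ≤ n) : 1 ≤ meanW c σ 1 := by
  classical
  rw [meanW]
  have h1 : ∫⁻ _a : Fin n → Fin d → ℝ, (1 : ℝ≥0∞) ∂(noise c σ) = 1 := by simp
  rw [← h1]
  apply lintegral_mono_ae
  filter_upwards [ae_simple c hσ, ae_exists_good c hσ hd hn] with a ha hb
  obtain ⟨B, hB⟩ := hb
  rw [tsum_vert ha]
  calc (1 : ℝ≥0∞) = if Good a B then (1 : Set (Fin n) → ℝ≥0∞) (Set.range B) else 0 := by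
        rw [if_pos hB]; rfl
    _ ≤ _ := Finset.single_le_sum
        (f := fun I : Idx n d => if Good a I then (1 : Set (Fin n) → ℝ≥0∞) (Set.range I) else 0)
        (fun I _ => by split_ifs <;> simp) (Finset.mem_univ B)

theorem meanW_le (c : Fin n → Fin d → ℝ) {σ : ℝ} (hσ : 0 < σ) (W : Set (Fin n) → ℝ≥0∞) :
    meanW c σ W ≤ ∑ I : Idx n d, W (Set.range I) := by
  rw [meanW_eq c hσ]
  refine Finset.sum_le_sum fun I _ => ?_
  calc W (Set.range I) * noise c σ {a | Good a I} ≤ W (Set.range I) * 1 := by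
        gcongr
        exact prob_le_one
    _ = _ := mul_one _

theorem meanW_zero (c : Fin n → Fin d → ℝ) {σ : ℝ} (hσ : 0 < σ) (hn : n < d)
    (W : Set (Fin n) → ℝ≥0∞) : meanW c σ W = 0 := by
  rw [meanW_eq c hσ]
  have : IsEmpty (Idx n d) := by
    constructor
    intro B
    have := Fintype.card_le_of_injective B B.injective
    simp at this
    omega
  simp

/-- The expectation of the pointwise bound. -/
theorem mean_le_W (hd : 2 ≤ d) (c : Fin n → Fin d → ℝ) (hc : ∀ i, n2 (c i) ≤ 1)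
    (W : Set (Fin n) → ℝ≥0∞)
    {σ ε Rg ρ₁ T L M ρ s₀ D : ℝ} {m : ℕ} (hσ : 0 < σ) (hσ1 : σ ≤ 1)
    (hσd : σ ≤ 1 / (6 * Real.sqrt (d * Real.log 2)))
    (hRg : 0 < Rg) (hρ₁ : 0 < ρ₁) (hT : 0 < T) (hM : 0 < M) (hs₀ : 0 < s₀) (hD : 0 < D)
    (p1 : 4 * (1 + (1 + Rg) * ρ₁) * (Rg + 1) ≤ σ ^ 2 * T) (p2 : 200 * d ≤ σ ^ 2 * T)
    (p3 : T * (d * (3 * d + 1) + 1) ≤ L)
    (p4 : T * (d * (3 * d) + L * (m * d) * (1 + Rg)) ≤ M)
    (p5 : 2 * L * (m * d) + (d * (3 * d + 1) + L * (m * d) * (1 + Rg)) * ρ₁ ≤ ρ)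
    (p6 : 2 * s₀ * (1 + (1 + Rg) * ρ) * (Rg + 1) ≤ σ ^ 2)
    (p7 : 2 * s₀ * (1 + (1 + Rg) * ρ) * L ≤ 1)
    (p8 : 2 * s₀ * (1 + (1 + Rg) * ρ) *
      ((d * (3 * d + 1) + L * (m * d) * (1 + Rg) + M * d * (1 + Rg)) * ρ) ≤ 1)
    (p9 : 12 * d ^ 3 * (Rg + 1) / (σ ^ 2 * ρ₁) +
        12 * d * (1 + (1 + Rg) * ρ₁) * (Rg + 1) / (σ ^ 2 * T) ≤ ε / 4)
    (p11 : 3 * (M * (d * (1 + Rg) ^ 2) * (d * T + (1 + d * (1 + Rg) * T) * (4 * d / s₀))) / D
        ≤ ε / 4) :
    meanW c σ W ≤ ∫⁻ a, ballWeight a W D ∂(noise c σ) + ENNReal.ofReal (ε / 2) * meanW c σ W +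
      ENNReal.ofReal (n * (Real.sqrt 2 ^ d * Real.exp (-(Rg ^ 2 / (4 * σ ^ 2)))) +
        (1 / 2) ^ m) * ∑ I : Idx n d, W (Set.range I) := by
  classical
  have hd1 : 1 ≤ d := by omega
  have hdr : (1 : ℝ) ≤ d := by exact_mod_cast hd1
  set G : Finset (Fin n) := Finset.univ.filter fun i : Fin n => (i : ℕ) < m * d with hG
  have hGc : (G.card : ℝ) ≤ m * d := by
    have h1 : G.card ≤ m * d := by
      have h2 : G.card = (G.map Fin.valEmbedding).card := (Finset.card_map _).symm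
      rw [h2]
      calc (G.map Fin.valEmbedding).card ≤ (Finset.range (m * d)).card := by
            apply Finset.card_le_card
            intro i hi
            rw [Finset.mem_map] at hi
            obtain ⟨j, hj, rfl⟩ := hi
            rw [hG, Finset.mem_filter] at hj
            exact Finset.mem_range.mpr hj.2
        _ = m * d := Finset.card_range _
    exact_mod_cast h1
  have hL : 0 < L := lt_of_lt_of_le (by positivity) p3
  set A : ℝ := 1 + Rg with hAdef
  have hA0 : 0 < A := by positivity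
  have hA : ∀ i, n2 (c i) + Rg ≤ A := fun i => by rw [hAdef]; linarith [hc i]
  set R : ℝ := 3 * d with hR
  have hR0 : 0 < R := by positivity
  have hLG : L * G.card * A ≤ L * (m * d) * A := by gcongr
  have q4 : T * (d * R + L * G.card * A) ≤ M := by
    refine le_trans ?_ p4
    gcongr
  have q5 : 2 * L * G.card + (d * (R + 1) + L * G.card * A) * ρ₁ ≤ ρ := by
    refine le_trans ?_ p5
    gcongr
  have hρ : 0 ≤ ρ := le_trans (by positivity) q5
  have q8 : 2 * s₀ * (1 + A * ρ) * ((d * (R + 1) + L * G.card * A + M * d * A) * ρ) ≤ 1 := by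
    refine le_trans ?_ p8
    gcongr
  have q3 : T * (d * R + 1) ≤ L := by
    refine le_trans ?_ p3
    gcongr
    linarith
  set Kc : ℝ := M * (d * A ^ 2) * (d * T + (1 + d * A * T) * (4 * d / s₀)) with hKc
  have hKc0 : 0 ≤ Kc := by positivity
  set δ₁ : ℝ := 12 * d ^ 3 * (Rg + 1) / (σ ^ 2 * ρ₁) +
        12 * d * (1 + A * ρ₁) * (Rg + 1) / (σ ^ 2 * T) with hδ₁
  set δ₂ : ℝ := n * (Real.sqrt 2 ^ d * Real.exp (-(Rg ^ 2 / (4 * σ ^ 2)))) +
        (1 / 2) ^ m with hδ₂
  have hδ₁0 : 0 ≤ δ₁ := by positivity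
  have hδ₂0 : 0 ≤ δ₂ := by positivity
  -- the pointwise bound
  set U : (Fin n → Fin d → ℝ) → ℝ≥0∞ := fun a =>
      ∑ I : Idx n d, W (Set.range I) * ((if Good a I ∧ ¬ Reg c a G I Rg ρ₁ T then 1 else 0) +
        (if Reg c a G I Rg ρ₁ T then
          fluxSum a G I A L M R / (ENNReal.ofReal D * cubeVol d R) else 0)) with hU
  have hpt : ∀ᵐ a ∂(noise c σ), ∑' v : Vert a, W (tightSet a v) ≤ ballWeight a W D + U a := by
    filter_upwards [ae_simple c hσ] with a ha
    exact weight_le_of c G ha W hd1 hA hT hR0 q3 hM q4 hD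
      (fun ha' I => lintegral_hits_le hA0 ha')
  have hmReg : ∀ I, MeasurableSet {a : Fin n → Fin d → ℝ | Reg c a G I Rg ρ₁ T} := fun I =>
    measurableSet_reg c G I Rg ρ₁ T
  have hm1 : ∀ I : Idx n d, MeasurableSet {a : Fin n → Fin d → ℝ |
      Good a I ∧ ¬ Reg c a G I Rg ρ₁ T} := fun I =>
    (measurableSet_good I).inter (hmReg I).compl
  have hmU1 : ∀ I : Idx n d, Measurable fun a : Fin n → Fin d → ℝ =>
      (if Good a I ∧ ¬ Reg c a G I Rg ρ₁ T then (1 : ℝ≥0∞) else 0) := fun I =>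
    Measurable.ite (hm1 I) measurable_const measurable_const
  have hmU2 : ∀ I : Idx n d, Measurable fun a : Fin n → Fin d → ℝ =>
      (if Reg c a G I Rg ρ₁ T then
          fluxSum a G I A L M R / (ENNReal.ofReal D * cubeVol d R) else 0) := fun I =>
    Measurable.ite (hmReg I) ((measurable_fluxSum G I A L M R).div_const _) measurable_const
  have hmUI : ∀ I : Idx n d, Measurable fun a : Fin n → Fin d → ℝ =>
      W (Set.range I) * ((if Good a I ∧ ¬ Reg c a G I Rg ρ₁ T then 1 else 0) +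
        (if Reg c a G I Rg ρ₁ T then
          fluxSum a G I A L M R / (ENNReal.ofReal D * cubeVol d R) else 0)) := fun I =>
    ((hmU1 I).add (hmU2 I)).const_mul _
  have hmU : Measurable U := Finset.measurable_sum _ fun I _ => hmUI I
  have h1 : meanW c σ W ≤ ∫⁻ a, ballWeight a W D ∂(noise c σ) + ∫⁻ a, U a ∂(noise c σ) := by
    rw [meanW, ← lintegral_add_right _ hmU]
    exact lintegral_mono_ae hpt
  refine h1.trans ?_
  rw [add_assoc]
  gcongr
  -- the expectation of `U`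
  have h2 : ∀ I : Idx n d, ∫⁻ a, ((if Good a I ∧ ¬ Reg c a G I Rg ρ₁ T then 1 else 0) +
        (if Reg c a G I Rg ρ₁ T then
          fluxSum a G I A L M R / (ENNReal.ofReal D * cubeVol d R) else 0)) ∂(noise c σ) ≤
      (ENNReal.ofReal δ₁ * noise c σ {a | Good a I} + ENNReal.ofReal δ₂) +
        ENNReal.ofReal (3 * Kc / D) * noise c σ {a | Good a I} := by
    intro I
    rw [lintegral_add_left (hmU1 I)]
    refine add_le_add ?_ ?_
    · have h3 : (fun a : Fin n → Fin d → ℝ =>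
          if Good a I ∧ ¬ Reg c a G I Rg ρ₁ T then (1 : ℝ≥0∞) else 0) =
          {a | Good a I ∧ ¬ Reg c a G I Rg ρ₁ T}.indicator 1 := by
        ext a
        simp [Set.indicator_apply]
      rw [h3, lintegral_indicator_one (hm1 I)]
      exact bad_bound c I hd hσ hσd hc hRg le_rfl hρ₁ p1 p2 m
    · have h3 : (fun a : Fin n → Fin d → ℝ => if Reg c a G I Rg ρ₁ T then
          fluxSum a G I A L M R / (ENNReal.ofReal D * cubeVol d R) else 0) =
          {a | Reg c a G I Rg ρ₁ T}.indicator fun a =>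
            fluxSum a G I A L M R / (ENNReal.ofReal D * cubeVol d R) := by
        ext a
        simp [Set.indicator_apply]
      rw [h3, lintegral_indicator (hmReg I)]
      simp only [div_eq_mul_inv]
      rw [lintegral_mul_const _ (measurable_fluxSum G I A L M R)]
      have h4 := lintegral_fluxSum_le c G I (σ := σ) (A := A) (Rg := Rg) (ρ₁ := ρ₁) (T := T)
        (L := L) (R := R) (M := M) (ρ := ρ) (s₀ := s₀) hd hσ hσ1 hRg.le hA hA0 hT hR0.le
        p3 hM.le q5 hs₀ p6 p7 q8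
      have h5 : cubeVol d (R + 3) ≤ 3 * cubeVol d R := cubeVol_ratio hd1
      have hV0 : cubeVol d R ≠ 0 := cubeVol_ne_zero hR0
      have hVt : cubeVol d R ≠ ⊤ := cubeVol_ne_top R
      have hD0 : ENNReal.ofReal D ≠ 0 := by simpa using hD
      calc (∫⁻ a in {a | Reg c a G I Rg ρ₁ T}, fluxSum a G I A L M R ∂(noise c σ)) *
            (ENNReal.ofReal D * cubeVol d R)⁻¹
          ≤ (ENNReal.ofReal Kc * (3 * cubeVol d R) * noise c σ {a | Good a I}) *
            (ENNReal.ofReal D * cubeVol d R)⁻¹ := by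
              gcongr
              exact h4.trans (by gcongr)
        _ = ENNReal.ofReal (3 * Kc / D) * noise c σ {a | Good a I} := by
              rw [ENNReal.mul_inv (Or.inl hD0) (Or.inr hV0), ENNReal.ofReal_div_of_pos hD,
                ENNReal.ofReal_mul (p := (3 : ℝ)) (by norm_num), ENNReal.ofReal_ofNat,
                div_eq_mul_inv]
              calc ENNReal.ofReal Kc * (3 * cubeVol d R) * noise c σ {a | Good a I} *
                    ((ENNReal.ofReal D)⁻¹ * (cubeVol d R)⁻¹)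
                  = (cubeVol d R * (cubeVol d R)⁻¹) * (3 * ENNReal.ofReal Kc *
                    (ENNReal.ofReal D)⁻¹ * noise c σ {a | Good a I}) := by ring
                _ = 3 * ENNReal.ofReal Kc * (ENNReal.ofReal D)⁻¹ *
                    noise c σ {a | Good a I} := by
                    rw [ENNReal.mul_inv_cancel hV0 hVt, one_mul]
  have h3 : ∫⁻ a, U a ∂(noise c σ) = ∑ I : Idx n d, W (Set.range I) *
      ∫⁻ a, ((if Good a I ∧ ¬ Reg c a G I Rg ρ₁ T then 1 else 0) +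
        (if Reg c a G I Rg ρ₁ T then
          fluxSum a G I A L M R / (ENNReal.ofReal D * cubeVol d R) else 0)) ∂(noise c σ) := by
    rw [hU, lintegral_finsetSum _ fun I _ => hmUI I]
    exact Finset.sum_congr rfl fun I _ => lintegral_const_mul _ ((hmU1 I).add (hmU2 I))
  rw [h3]
  refine (Finset.sum_le_sum fun I _ => mul_le_mul_right (h2 I) _).trans ?_
  have h7 : ∀ I : Idx n d, W (Set.range I) *
      ((ENNReal.ofReal δ₁ * noise c σ {a | Good a I} + ENNReal.ofReal δ₂) +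
        ENNReal.ofReal (3 * Kc / D) * noise c σ {a | Good a I}) =
      (ENNReal.ofReal δ₁ + ENNReal.ofReal (3 * Kc / D)) *
        (W (Set.range I) * noise c σ {a | Good a I}) + ENNReal.ofReal δ₂ * W (Set.range I) := by
    intro I
    ring
  rw [Finset.sum_congr rfl fun I _ => h7 I, Finset.sum_add_distrib, ← Finset.mul_sum,
    ← Finset.mul_sum, ← meanW_eq c hσ]
  gcongr
  rw [← ENNReal.ofReal_add hδ₁0 (by positivity)]
  apply ENNReal.ofReal_le_ofReal
  linarith

theorem ballWeight_mono (a : Fin n → Fin d → ℝ) (W : Set (Fin n) → ℝ≥0∞) {D D' : ℝ}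
    (h : D ≤ D') : ballWeight a W D ≤ ballWeight a W D' := by
  refine iSup_mono fun v₀ => ?_
  have h1 : {v : Vert a | ((graph a).edist v₀ v : ℝ≥0∞) ≤ ENNReal.ofReal D} ⊆
      {v : Vert a | ((graph a).edist v₀ v : ℝ≥0∞) ≤ ENNReal.ofReal D'} := fun v hv =>
    le_trans hv (ENNReal.ofReal_le_ofReal h)
  exact ENNReal.tsum_mono_subtype (fun v => W (tightSet a v)) h1

/-- In dimension one all vertices lie in a ball of radius one. -/
theorem tsum_le_ballWeight_one (a : Fin n → Fin 1 → ℝ) (W : Set (Fin n) → ℝ≥0∞) {D : ℝ}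
    (hD : 1 ≤ D) : ∑' v : Vert a, W (tightSet a v) ≤ ballWeight a W D := by
  rcases isEmpty_or_nonempty (Vert a) with h | ⟨⟨v₀⟩⟩
  · simp
  · refine le_trans ?_ (le_iSup _ v₀)
    have h1 : ∀ v : Vert a, ((graph a).edist v₀ v : ℝ≥0∞) ≤ ENNReal.ofReal D := by
      intro v
      have h2 : ((graph a).edist v₀ v : ℝ≥0∞) ≤ 1 := by exact_mod_cast edist_one a v₀ v
      refine h2.trans ?_
      rw [← ENNReal.ofReal_one]
      exact ENNReal.ofReal_le_ofReal hD
    rw [← tsum_univ fun v : Vert a => W (tightSet a v)]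
    exact ENNReal.tsum_mono_subtype (fun v => W (tightSet a v)) fun v _ => h1 v

/-- The error term. -/
noncomputable def errW (n d : ℕ) (ε : ℝ) (W : Set (Fin n) → ℝ≥0∞) : ℝ≥0∞ :=
  ENNReal.ofReal (ε / (n : ℝ) ^ (10 * d)) *
    ∑ I ∈ (Finset.univ : Finset (Fin n)).powersetCard d, W I

theorem sum_idx_le (W : Set (Fin n) → ℝ≥0∞) : ∑ I : Idx n d, W (Set.range I) ≤
    ∑ I ∈ (Finset.univ : Finset (Fin n)).powersetCard d, W I := by
  classical
  have h1 : ∑ I : Idx n d, W (Set.range I) =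
      ∑ s ∈ (Finset.univ : Finset (Idx n d)).image
        (fun I : Idx n d => Finset.univ.map I.toEmbedding), W s := by
    rw [Finset.sum_image]
    · refine Finset.sum_congr rfl fun I _ => ?_
      congr 1
      ext i
      simp
    · intro I _ I' _ h
      have h2 : Set.range I = Set.range I' := by
        have := congrArg (fun s : Finset (Fin n) => (s : Set (Fin n))) h
        simpa using this
      exact OrderEmbedding.range_inj.mp h2
  rw [h1]
  apply Finset.sum_le_sum_of_subset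
  intro s hs
  rw [Finset.mem_image] at hs
  obtain ⟨I, _, rfl⟩ := hs
  rw [Finset.mem_powersetCard]
  exact ⟨Finset.subset_univ _, by simp⟩

/-- The theorem with weights. -/
theorem mainW : ∃ (C : ℝ) (K : ℕ), ∀ n d : ℕ, 2 ≤ n → 1 ≤ d → ∀ σ ε : ℝ, 0 < σ →
    σ ≤ 1 / (6 * Real.sqrt (d * Real.log n)) → 0 < ε → ε ≤ 1 →
    ∀ c : Fin n → Fin d → ℝ, (∀ i, ∑ j, (c i j) ^ 2 ≤ 1) →
      ENNReal.ofReal (1 - ε) * meanW c σ 1 ≤
        ∫⁻ a, ballWeight a 1 (C * (d / (σ * ε)) ^ K) ∂(noise c σ) ∧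
      ∀ W : Set (Fin n) → ℝ≥0∞, ENNReal.ofReal (1 - ε) * meanW c σ W ≤
        ∫⁻ a, ballWeight a W (C * (d / (σ * ε)) ^ K) ∂(noise c σ) + errW n d ε W := by
  obtain ⟨C₀, K, hpar⟩ := params10
  refine ⟨max C₀ 1, K, ?_⟩
  intro n d hn hd σ ε hσ hσn hε hε1 c hc
  have hlog2 : 0 < Real.log 2 := Real.log_pos (by norm_num)
  have hn2 : (2 : ℝ) ≤ n := by exact_mod_cast hn
  have hlogn : Real.log 2 ≤ Real.log n := Real.log_le_log (by norm_num) hn2
  have hd0 : (1 : ℝ) ≤ d := by exact_mod_cast hd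
  have hσd : σ ≤ 1 / (6 * Real.sqrt (d * Real.log 2)) := by
    refine hσn.trans ?_
    apply one_div_le_one_div_of_le
    · have : 0 < Real.sqrt (d * Real.log 2) := Real.sqrt_pos.mpr (by positivity)
      positivity
    · gcongr
  have hσ1 : σ ≤ 1 := by
    refine hσd.trans ?_
    have h1 : (1 / 4 : ℝ) ≤ Real.sqrt (d * Real.log 2) := by
      rw [show (1 / 4 : ℝ) = Real.sqrt ((1 / 4) ^ 2) by rw [Real.sqrt_sq (by norm_num)]]
      apply Real.sqrt_le_sqrt
      have := Real.log_two_gt_d9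
      nlinarith
    rw [div_le_one (by positivity)]
    linarith
  have hq : 1 ≤ d / (σ * ε) := by
    rw [one_le_div (by positivity)]
    nlinarith
  have hCq : (1 : ℝ) ≤ max C₀ 1 * (d / (σ * ε)) ^ K := by
    have h1 : (1 : ℝ) ≤ (d / (σ * ε)) ^ K := one_le_pow₀ hq
    have h2 : (1 : ℝ) ≤ max C₀ 1 := le_max_right _ _
    nlinarith
  rcases Nat.lt_or_ge d 2 with hd2 | hd2
  · -- dimension one
    obtain rfl : d = 1 := by omega
    have h0 : ∀ W : Set (Fin n) → ℝ≥0∞, ENNReal.ofReal (1 - ε) * meanW c σ W ≤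
        ∫⁻ a, ballWeight a W (max C₀ 1 * (((1 : ℕ) : ℝ) / (σ * ε)) ^ K) ∂(noise c σ) := by
      intro W
      calc ENNReal.ofReal (1 - ε) * meanW c σ W ≤ 1 * meanW c σ W := by
            gcongr
            rw [← ENNReal.ofReal_one]
            exact ENNReal.ofReal_le_ofReal (by linarith)
        _ = meanW c σ W := one_mul _
        _ ≤ _ := lintegral_mono fun a => tsum_le_ballWeight_one a W hCq
    exact ⟨h0 1, fun W => (h0 W).trans le_self_add⟩
  rcases Nat.lt_or_ge n d with hnd | hnd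
  · refine ⟨?_, fun W => ?_⟩
    · rw [meanW_zero c hσ hnd]; simp
    · rw [meanW_zero c hσ hnd]; simp
  obtain ⟨Rg, ρ₁, T, L, M, ρ, s₀, D, m, h1, h2, h3, h4, h5, h6, p1, p2, p3, p4, p5, p6, p7, p8,
    p9, p10, p11, p12⟩ := hpar n d hn hd2 σ ε hσ hσn hε hε1
  have hc' : ∀ i, n2 (c i) ≤ 1 := by
    intro i
    rw [n2, Real.sqrt_le_one]
    refine le_trans (le_of_eq ?_) (hc i)
    exact Finset.sum_congr rfl fun j _ => (pow_two (c i j)).symm
  have hmain := fun W => mean_le_W hd2 c hc' W hσ hσ1 hσd h1 h2 h3 h4 h5 h6 p1 p2 p3 p4 p5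
    p6 p7 p8 p9 p11
  set δ₂ : ℝ := n * (Real.sqrt 2 ^ d * Real.exp (-(Rg ^ 2 / (4 * σ ^ 2)))) +
        (1 / 2) ^ m with hδ₂
  have hδ₂0 : 0 ≤ δ₂ := by positivity
  have hmono : ∀ W, ∫⁻ a, ballWeight a W D ∂(noise c σ) ≤
      ∫⁻ a, ballWeight a W (max C₀ 1 * (d / (σ * ε)) ^ K) ∂(noise c σ) := fun W =>
    lintegral_mono fun a => ballWeight_mono a W (p12.trans (by
      have : (0 : ℝ) ≤ (d / (σ * ε)) ^ K := by positivity
      exact mul_le_mul_of_nonneg_right (le_max_left _ _) this))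
  have hcancel : ∀ x y : ℝ≥0∞, x ≠ ⊤ → x ≤ y + ENNReal.ofReal ε * x →
      ENNReal.ofReal (1 - ε) * x ≤ y := by
    intro x y hx hxy
    have h7 : ENNReal.ofReal (1 - ε) * x + ENNReal.ofReal ε * x ≤ y + ENNReal.ofReal ε * x := by
      rw [← add_mul, ← ENNReal.ofReal_add (by linarith) hε.le, sub_add_cancel,
        ENNReal.ofReal_one, one_mul]
      exact hxy
    exact (ENNReal.add_le_add_iff_right (ENNReal.mul_ne_top ENNReal.ofReal_ne_top hx)).mp h7
  have hnpos : (0 : ℝ) < (n : ℝ) ^ (10 * d) := by positivity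
  have hhalf : ∀ x : ℝ≥0∞, ENNReal.ofReal (ε / 2) * x ≤ ENNReal.ofReal ε * x := fun x => by
    gcongr
    linarith
  refine ⟨?_, fun W => ?_⟩
  · -- unit weights
    have hone := one_le_meanW c hσ hd hnd
    have hfin : meanW c σ 1 ≠ ⊤ := by
      refine ((meanW_le c hσ 1).trans_lt ?_).ne
      refine ENNReal.sum_lt_top.mpr fun I _ => ?_
      exact ENNReal.one_lt_top
    refine hcancel _ _ hfin ((hmain 1).trans ?_)
    rw [add_assoc]
    refine add_le_add (hmono 1) ?_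
    have h8 : ENNReal.ofReal δ₂ * ∑ I : Idx n d, (1 : Set (Fin n) → ℝ≥0∞) (Set.range I) ≤
        ENNReal.ofReal (ε / 4) * meanW c σ 1 := by
      have h9 : ∑ I : Idx n d, (1 : Set (Fin n) → ℝ≥0∞) (Set.range I) =
          ENNReal.ofReal (Fintype.card (Idx n d) : ℝ) := by
        simp
      rw [h9, ← ENNReal.ofReal_mul hδ₂0]
      calc ENNReal.ofReal (δ₂ * (Fintype.card (Idx n d) : ℝ)) ≤ ENNReal.ofReal (ε / 4) := by
            apply ENNReal.ofReal_le_ofReal
            refine le_trans ?_ p10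
            rw [mul_comm]
            refine mul_le_mul_of_nonneg_right (card_idx_le.trans ?_) hδ₂0
            exact pow_le_pow_right₀ (by linarith) (by omega)
        _ = ENNReal.ofReal (ε / 4) * 1 := (mul_one _).symm
        _ ≤ ENNReal.ofReal (ε / 4) * meanW c σ 1 := by gcongr
    refine (add_le_add le_rfl h8).trans ?_
    rw [← add_mul, ← ENNReal.ofReal_add (by positivity) (by positivity)]
    gcongr
    linarith
  · -- arbitrary weights
    by_cases hW : ∑ I : Idx n d, W (Set.range I) = ⊤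
    · have h8 : errW n d ε W = ⊤ := by
        have h9 : (⊤ : ℝ≥0∞) ≤ ∑ I ∈ (Finset.univ : Finset (Fin n)).powersetCard d, W I := by
          rw [← hW]
          exact sum_idx_le W
        rw [errW, top_le_iff.mp h9]
        refine ENNReal.mul_top ?_
        have : 0 < ε / (n : ℝ) ^ (10 * d) := by positivity
        simpa using this
      rw [h8]
      simp
    · have hfin : meanW c σ W ≠ ⊤ := ((meanW_le c hσ W).trans_lt (lt_top_iff_ne_top.mpr hW)).ne
      refine hcancel _ _ hfin ((hmain W).trans ?_)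
      have h8 : ENNReal.ofReal δ₂ * ∑ I : Idx n d, W (Set.range I) ≤ errW n d ε W := by
        rw [errW]
        refine mul_le_mul' (ENNReal.ofReal_le_ofReal ?_) (sum_idx_le W)
        rw [le_div_iff₀ hnpos, mul_comm]
        exact p10.trans (by linarith)
      calc ∫⁻ a, ballWeight a W D ∂(noise c σ) + ENNReal.ofReal (ε / 2) * meanW c σ W +
            ENNReal.ofReal δ₂ * ∑ I : Idx n d, W (Set.range I)
          ≤ ∫⁻ a, ballWeight a W (max C₀ 1 * (d / (σ * ε)) ^ K) ∂(noise c σ) +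
            ENNReal.ofReal ε * meanW c σ W + errW n d ε W :=
            add_le_add (add_le_add (hmono W) (hhalf _)) h8
        _ = _ := by ring

/-- The theorem, with the unweighted part stated for numbers of vertices. -/
theorem main : ∃ (C : ℝ) (K : ℕ), ∀ n d : ℕ, 2 ≤ n → 1 ≤ d → ∀ σ ε : ℝ, 0 < σ →
    σ ≤ 1 / (6 * Real.sqrt (d * Real.log n)) → 0 < ε → ε ≤ 1 →
    ∀ c : Fin n → Fin d → ℝ, (∀ i, ∑ j, (c i j) ^ 2 ≤ 1) →
      ENNReal.ofReal (1 - ε) *
          ∫⁻ a, (((Set.univ : Set (Vert a)).encard : ℕ∞) : ℝ≥0∞) ∂(noise c σ) ≤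
        ∫⁻ a, ⨆ v₀ : Vert a, (({v : Vert a | ((graph a).edist v₀ v : ℝ≥0∞) ≤
          ENNReal.ofReal (C * (d / (σ * ε)) ^ K)}.encard : ℕ∞) : ℝ≥0∞) ∂(noise c σ) ∧
      ∀ W : Set (Fin n) → ℝ≥0∞,
        ENNReal.ofReal (1 - ε) * ∫⁻ a, ∑' v : Vert a, W (tightSet a v) ∂(noise c σ) ≤
          ∫⁻ a, (⨆ v₀ : Vert a, ∑' v : {v : Vert a // ((graph a).edist v₀ v : ℝ≥0∞) ≤
            ENNReal.ofReal (C * (d / (σ * ε)) ^ K)}, W (tightSet a v.1)) ∂(noise c σ) +
          ENNReal.ofReal (ε / (n : ℝ) ^ (10 * d)) *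
            ∑ I ∈ (Finset.univ : Finset (Fin n)).powersetCard d, W I := by
  obtain ⟨C, K, h⟩ := mainW
  refine ⟨C, K, fun n d hn hd σ ε hσ hσn hε hε1 c hc => ?_⟩
  obtain ⟨h1, h2⟩ := h n d hn hd σ ε hσ hσn hε hε1 c hc
  refine ⟨?_, h2⟩
  have h3 : ∀ a : Fin n → Fin d → ℝ, (((Set.univ : Set (Vert a)).encard : ℕ∞) : ℝ≥0∞) =
      ∑' v : Vert a, (1 : Set (Fin n) → ℝ≥0∞) (tightSet a v) := by
    intro a
    rw [← ENNReal.tsum_set_one, tsum_univ fun _ : Vert a => (1 : ℝ≥0∞)]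
    rfl
  have h4 : ∀ (a : Fin n → Fin d → ℝ) (D : ℝ), (⨆ v₀ : Vert a,
      (({v : Vert a | ((graph a).edist v₀ v : ℝ≥0∞) ≤ ENNReal.ofReal D}.encard : ℕ∞) :
        ℝ≥0∞)) = ballWeight a 1 D := by
    intro a D
    rw [ballWeight]
    refine iSup_congr fun v₀ => ?_
    rw [← ENNReal.tsum_set_one]
    rfl
  simp only [h3, h4]
  exact h1

end Pool.Agent.H.MP_0cad2f_co.helper47
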