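import Mathlib

/-!
Typical distances in Gaussian-perturbed polytopes: definitions and the linear algebra of bases.

`mat a B` is the matrix whose rows are the constraints of the basis `B`, `nu a B k` is the dual
vector of the `k`-th row, `vtx a B` the point where all constraints of `B` are tight.
-/

set_option autoImplicit false

namespace Pool.Agent.H.MP_0cad2f_co.helper47

open MeasureTheory ProbabilityTheory Matrix Finset
open scoped NNReal ENNReal

variable {n d : ℕ}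

/-- The vertices of the polyhedron `{x | ∀ i, ⟨a i, x⟩ ≤ 1}`: feasible points whose tight
constraints span. -/
abbrev Vert (a : Fin n → Fin d → ℝ) : Type :=
  {x : Fin d → ℝ // (∀ i, ∑ j, a i j * x j ≤ 1) ∧
    Submodule.span ℝ (a '' {i | ∑ j, a i j * x j = 1}) = ⊤}

/-- The edge graph: two vertices are joined when their common tight constraints have
rank `d - 1`. -/
abbrev graph (a : Fin n → Fin d → ℝ) : SimpleGraph (Vert a) :=
  SimpleGraph.fromRel (fun u v : Vert a =>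
    Module.finrank ℝ (Submodule.span ℝ
      (a '' {i | ∑ j, a i j * u.1 j = 1 ∧ ∑ j, a i j * v.1 j = 1})) = d - 1)

/-- The law of one perturbed constraint. -/
noncomputable abbrev gau (c : Fin d → ℝ) (σ : ℝ) : Measure (Fin d → ℝ) :=
  Measure.pi (fun j : Fin d => gaussianReal (c j) (Real.toNNReal (σ ^ 2)))

/-- The law of the perturbed constraints. -/
noncomputable abbrev noise (c : Fin n → Fin d → ℝ) (σ : ℝ) : Measure (Fin n → Fin d → ℝ) :=
  Measure.pi (fun i : Fin n => gau (c i) σ)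

/-- The Euclidean norm. -/
noncomputable def n2 (x : Fin d → ℝ) : ℝ := Real.sqrt (x ⬝ᵥ x)

/-- Sets of `d` constraints. -/
abbrev Idx (n d : ℕ) : Type := Fin d ↪o Fin n

/-- The matrix of the constraints in `B`. -/
def mat (a : Fin n → Fin d → ℝ) (B : Idx n d) : Matrix (Fin d) (Fin d) ℝ := fun k j => a (B k) j

/-- The dual vectors of a basis. -/
noncomputable def nu (a : Fin n → Fin d → ℝ) (B : Idx n d) (k : Fin d) : Fin d → ℝ :=
  fun j => (mat a B)⁻¹ j k

/-- The point where all constraints of `B` are tight. -/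
noncomputable def vtx (a : Fin n → Fin d → ℝ) (B : Idx n d) : Fin d → ℝ := ∑ k, nu a B k

/-- `B` is a basis and its point is feasible. -/
def Good (a : Fin n → Fin d → ℝ) (B : Idx n d) : Prop :=
  (mat a B).det ≠ 0 ∧ ∀ i, a i ⬝ᵥ vtx a B ≤ 1

/-- `w` lies in the cone spanned by the constraints in `B` (for a basis `B`). -/
def InCone (a : Fin n → Fin d → ℝ) (B : Idx n d) (w : Fin d → ℝ) : Prop :=
  ∀ k, 0 ≤ nu a B k ⬝ᵥ w

/-- The segment from `X` to `X + M • c` meets the `k`-th facet of the cone of `B`. -/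
def Hit (a : Fin n → Fin d → ℝ) (B : Idx n d) (k : Fin d) (c : Fin d → ℝ) (M : ℝ)
    (X : Fin d → ℝ) : Prop :=
  ∃ μ ∈ Set.Icc (0 : ℝ) M, InCone a B (X + μ • c) ∧ nu a B k ⬝ᵥ (X + μ • c) = 0

open Classical in
/-- The number of facets of normal cones met by the segment. -/
noncomputable def hits (a : Fin n → Fin d → ℝ) (c : Fin d → ℝ) (M : ℝ) (X : Fin d → ℝ) : ℕ :=
  ∑ B : Idx n d, ∑ k : Fin d, if Good a B ∧ Hit a B k c M X then 1 else 0

/-- `X` is in general position with respect to `a` and `c`. -/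
def Generic (a : Fin n → Fin d → ℝ) (c X : Fin d → ℝ) : Prop :=
  ∀ s : Finset (Fin n), (s.card < d → X ∉ Submodule.span ℝ (a '' (s : Set (Fin n)))) ∧
    (s.card + 1 < d → X ∉ Submodule.span ℝ (insert c (a '' (s : Set (Fin n)))))

/-- Every feasible basis point has exactly `d` tight constraints. -/
def Simple (a : Fin n → Fin d → ℝ) : Prop :=
  ∀ B : Idx n d, Good a B → ∀ i, i ∉ Set.range B → a i ⬝ᵥ vtx a B ≠ 1

section norms

theorem dot_self_nonneg (x : Fin d → ℝ) : 0 ≤ x ⬝ᵥ x :=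
  Finset.sum_nonneg fun j _ => mul_self_nonneg (x j)

theorem n2_nonneg (x : Fin d → ℝ) : 0 ≤ n2 x := Real.sqrt_nonneg _

theorem n2_sq (x : Fin d → ℝ) : n2 x ^ 2 = x ⬝ᵥ x := Real.sq_sqrt (dot_self_nonneg x)

theorem n2_eq (x : Fin d → ℝ) : n2 x = ‖(WithLp.toLp 2 x : EuclideanSpace ℝ (Fin d))‖ := by
  rw [n2, EuclideanSpace.norm_eq]
  congr 1
  refine Finset.sum_congr rfl fun j _ => ?_
  simp [Real.norm_eq_abs, pow_two]

theorem n2_smul (t : ℝ) (x : Fin d → ℝ) : n2 (t • x) = |t| * n2 x := by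
  rw [n2_eq, n2_eq, WithLp.toLp_smul, norm_smul, Real.norm_eq_abs]

theorem n2_add_le (x y : Fin d → ℝ) : n2 (x + y) ≤ n2 x + n2 y := by
  rw [n2_eq, n2_eq, n2_eq, WithLp.toLp_add]
  exact norm_add_le _ _

theorem n2_neg (x : Fin d → ℝ) : n2 (-x) = n2 x := by
  rw [n2, n2, neg_dotProduct_neg]

theorem n2_sub_le (x y : Fin d → ℝ) : n2 (x - y) ≤ n2 x + n2 y := by
  rw [sub_eq_add_neg]
  exact (n2_add_le _ _).trans (by rw [n2_neg])

theorem n2_sum_le {ι : Type*} (s : Finset ι) (f : ι → Fin d → ℝ) :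
    n2 (∑ i ∈ s, f i) ≤ ∑ i ∈ s, n2 (f i) := by
  classical
  induction s using Finset.induction_on with
  | empty => simp [n2]
  | insert i s hi ih =>
    rw [Finset.sum_insert hi, Finset.sum_insert hi]
    exact (n2_add_le _ _).trans (by linarith)

theorem abs_dot_le (x y : Fin d → ℝ) : |x ⬝ᵥ y| ≤ n2 x * n2 y := by
  rw [← Real.sqrt_sq_eq_abs, n2, n2, ← Real.sqrt_mul (dot_self_nonneg x)]
  apply Real.sqrt_le_sqrt
  have h := Finset.sum_mul_sq_le_sq_mul_sq (Finset.univ : Finset (Fin d)) x y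
  simpa [dotProduct, pow_two] using h

theorem dot_le (x y : Fin d → ℝ) : x ⬝ᵥ y ≤ n2 x * n2 y := (le_abs_self _).trans (abs_dot_le x y)

theorem abs_apply_le (x : Fin d → ℝ) (j : Fin d) : |x j| ≤ n2 x := by
  rw [← Real.sqrt_sq_eq_abs, n2]
  apply Real.sqrt_le_sqrt
  rw [pow_two]
  exact Finset.single_le_sum (f := fun j => x j * x j) (fun j _ => mul_self_nonneg (x j))
    (Finset.mem_univ j)

/-- The sup norm is at most the Euclidean norm. -/
theorem norm_le_n2 (x : Fin d → ℝ) : ‖x‖ ≤ n2 x := by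
  rw [pi_norm_le_iff_of_nonneg (n2_nonneg x)]
  intro j
  rw [Real.norm_eq_abs]
  exact abs_apply_le x j

theorem n2_le (x : Fin d → ℝ) : n2 x ≤ d * ‖x‖ := by
  rcases Nat.eq_zero_or_pos d with hd | hd
  · subst hd
    simp [n2, dotProduct]
  rw [n2, Real.sqrt_le_left (by positivity)]
  have h1 : x ⬝ᵥ x ≤ ∑ _j : Fin d, ‖x‖ ^ 2 := by
    refine Finset.sum_le_sum fun j _ => ?_
    rw [← pow_two, ← sq_abs]
    have := norm_le_pi_norm x j
    rw [Real.norm_eq_abs] at this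
    gcongr
  have hd1 : (1 : ℝ) ≤ d := by exact_mod_cast hd
  calc x ⬝ᵥ x ≤ ∑ _j : Fin d, ‖x‖ ^ 2 := h1
    _ = d * ‖x‖ ^ 2 := by simp
    _ ≤ (d * ‖x‖) ^ 2 := by
        rw [mul_pow]
        have : (d : ℝ) ≤ (d : ℝ) ^ 2 := by nlinarith
        gcongr

end norms

section basis

variable {a : Fin n → Fin d → ℝ} {B : Idx n d}

theorem dot_nu (h : (mat a B).det ≠ 0) (k l : Fin d) :
    a (B k) ⬝ᵥ nu a B l = if k = l then 1 else 0 := by
  have h1 : mat a B * (mat a B)⁻¹ = 1 := Matrix.mul_nonsing_inv _ (isUnit_iff_ne_zero.mpr h)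
  have h2 := congrFun (congrFun h1 k) l
  rw [Matrix.mul_apply, Matrix.one_apply] at h2
  exact h2

theorem dot_nu_self (h : (mat a B).det ≠ 0) (k : Fin d) : a (B k) ⬝ᵥ nu a B k = 1 := by
  rw [dot_nu h, if_pos rfl]

theorem dot_nu_ne (h : (mat a B).det ≠ 0) {k l : Fin d} (hkl : k ≠ l) :
    a (B k) ⬝ᵥ nu a B l = 0 := by
  rw [dot_nu h, if_neg hkl]

/-- Expansion in the basis `B`. -/
theorem sum_nu_smul (h : (mat a B).det ≠ 0) (w : Fin d → ℝ) :
    ∑ k, (nu a B k ⬝ᵥ w) • a (B k) = w := by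
  have h1 : (mat a B)⁻¹ * mat a B = 1 := Matrix.nonsing_inv_mul _ (isUnit_iff_ne_zero.mpr h)
  ext j
  rw [Finset.sum_apply]
  have h2 : ∀ k, ((nu a B k ⬝ᵥ w) • a (B k)) j = ∑ i, w i * ((mat a B)⁻¹ i k * mat a B k j) := by
    intro k
    rw [Pi.smul_apply, smul_eq_mul, dotProduct, Finset.sum_mul]
    refine Finset.sum_congr rfl fun i _ => ?_
    rw [nu, mat]
    ring
  rw [Finset.sum_congr rfl fun k _ => h2 k, Finset.sum_comm]
  have h3 : ∀ i, ∑ k, w i * ((mat a B)⁻¹ i k * mat a B k j) = w i * (1 : Matrix _ _ ℝ) i j := by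
    intro i
    rw [← Finset.mul_sum, ← h1, Matrix.mul_apply]
  rw [Finset.sum_congr rfl fun i _ => h3 i]
  simp [Matrix.one_apply]

/-- Expansion in the dual basis. -/
theorem sum_smul_nu (h : (mat a B).det ≠ 0) (x : Fin d → ℝ) :
    ∑ k, (a (B k) ⬝ᵥ x) • nu a B k = x := by
  have h1 : (mat a B)⁻¹ * mat a B = 1 := Matrix.nonsing_inv_mul _ (isUnit_iff_ne_zero.mpr h)
  ext j
  rw [Finset.sum_apply]
  have h2 : ∀ k, ((a (B k) ⬝ᵥ x) • nu a B k) j = ∑ i, ((mat a B)⁻¹ j k * mat a B k i) * x i := by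
    intro k
    rw [Pi.smul_apply, smul_eq_mul, dotProduct, Finset.sum_mul]
    refine Finset.sum_congr rfl fun i _ => ?_
    rw [nu, mat]
    ring
  rw [Finset.sum_congr rfl fun k _ => h2 k, Finset.sum_comm]
  have h3 : ∀ i, ∑ k, ((mat a B)⁻¹ j k * mat a B k i) * x i = (1 : Matrix _ _ ℝ) j i * x i := by
    intro i
    rw [← Finset.sum_mul, ← h1, Matrix.mul_apply]
  rw [Finset.sum_congr rfl fun i _ => h3 i]
  simp [Matrix.one_apply]

/-- A vector orthogonal to the constraints of `B` vanishes. -/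
theorem eq_of_dot_eq (h : (mat a B).det ≠ 0) {x y : Fin d → ℝ}
    (hxy : ∀ k, a (B k) ⬝ᵥ x = a (B k) ⬝ᵥ y) : x = y := by
  rw [← sum_smul_nu h x, ← sum_smul_nu h y]
  exact Finset.sum_congr rfl fun k _ => by rw [hxy k]

theorem dot_vtx (h : (mat a B).det ≠ 0) (k : Fin d) : a (B k) ⬝ᵥ vtx a B = 1 := by
  rw [vtx, dotProduct_sum, Finset.sum_congr rfl fun l _ => dot_nu h k l]
  simp

theorem eq_vtx (h : (mat a B).det ≠ 0) {x : Fin d → ℝ} (hx : ∀ k, a (B k) ⬝ᵥ x = 1) :
    x = vtx a B :=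
  eq_of_dot_eq h fun k => by rw [hx k, dot_vtx h k]

/-- The coordinates of `w` add up to its value at the vertex. -/
theorem sum_coord (a : Fin n → Fin d → ℝ) (B : Idx n d) (w : Fin d → ℝ) :
    ∑ k, nu a B k ⬝ᵥ w = w ⬝ᵥ vtx a B := by
  rw [dotProduct_comm w, vtx, sum_dotProduct]

theorem eq_nu (h : (mat a B).det ≠ 0) {l : Fin d} {x : Fin d → ℝ}
    (hx : ∀ k, a (B k) ⬝ᵥ x = if k = l then 1 else 0) : x = nu a B l :=
  eq_of_dot_eq h fun k => by rw [hx k, dot_nu h k l]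

theorem det_ne_zero_iff : (mat a B).det ≠ 0 ↔ LinearIndependent ℝ (fun k => a (B k)) := by
  have h := Matrix.linearIndependent_rows_iff_isUnit (A := mat a B)
  rw [Matrix.isUnit_iff_isUnit_det, isUnit_iff_ne_zero] at h
  exact h.symm

/-- A criterion for a basis: a dual family. -/
theorem det_ne_zero_of_dual (y : Fin d → Fin d → ℝ)
    (hy : ∀ k l, a (B k) ⬝ᵥ y l = if k = l then 1 else 0) : (mat a B).det ≠ 0 := by
  have h1 : mat a B * (Matrix.of fun j l => y l j) = 1 := by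
    ext k l
    rw [Matrix.mul_apply, Matrix.one_apply, ← hy k l]
    rfl
  intro h0
  have h2 := congrArg Matrix.det h1
  rw [Matrix.det_mul, h0, zero_mul, Matrix.det_one] at h2
  exact zero_ne_one h2

end basis

end Pool.Agent.H.MP_0cad2f_co.helper47
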