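import Pool.Agent.H.MP_0cad2f_co.helper29.Point

/-! The pointwise estimate with weights on the sets of tight constraints. -/

set_option autoImplicit false

namespace Pool.Agent.H.MP_0cad2f_co.helper47

open MeasureTheory Matrix Finset
open scoped NNReal ENNReal
open Pool.Agent.H.MP_0cad2f_co.helper29 (toVert toVert_surjective toVert_injective cubeVol_ne_zero
  cubeVol_ne_top cube_eq ae_generic exists_good_cone measurable_hits)
open Pool.Agent.H.MP_0cad2f_co.helper35 (obj_dot_le inCone_end)
open Pool.Agent.H.MP_0cad2f_co.helper73 (edist_le_hits)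

variable {n d : ℕ}

/-- The set of tight constraints of a vertex. -/
abbrev tightSet (a : Fin n → Fin d → ℝ) (v : Vert a) : Set (Fin n) :=
  {i | ∑ j, a i j * v.1 j = 1}

/-- The largest weight of a ball of radius `D` of the edge graph. -/
noncomputable def ballWeight (a : Fin n → Fin d → ℝ) (W : Set (Fin n) → ℝ≥0∞) (D : ℝ) : ℝ≥0∞ :=
  ⨆ v₀ : Vert a, ∑' v : {v : Vert a // ((graph a).edist v₀ v : ℝ≥0∞) ≤ ENNReal.ofReal D},
    W (tightSet a v.1)

theorem tightSet_toVert {a : Fin n → Fin d → ℝ} (hs : Simple a) (B : {B : Idx n d // Good a B}) :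
    tightSet a (toVert a B) = Set.range B.1 := by
  ext i
  simp only [tightSet, Set.mem_ofPred_eq]
  constructor
  · intro hi
    by_contra hcon
    exact hs B.1 B.2 i hcon hi
  · rintro ⟨k, rfl⟩
    exact dot_vtx B.2.1 k

open Classical in
/-- Sums over the vertices with a property. -/
theorem tsum_pred {a : Fin n → Fin d → ℝ} (hs : Simple a) (W : Set (Fin n) → ℝ≥0∞)
    (p : Vert a → Prop) :
    ∑' v : {v : Vert a // p v}, W (tightSet a v.1) =
      ∑ I : Idx n d, if h : Good a I then
        (if p (toVert a ⟨I, h⟩) then W (Set.range I) else 0) else 0 := by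
  refine (tsum_subtype {v : Vert a | p v} fun v => W (tightSet a v)).trans ?_
  have hbij : Function.Bijective (toVert a) := ⟨toVert_injective hs, toVert_surjective a⟩
  rw [← (Equiv.ofBijective (toVert a) hbij).tsum_eq, tsum_fintype]
  have h3 : ∑ I : Idx n d, (if h : Good a I then
        (if p (toVert a ⟨I, h⟩) then W (Set.range I) else 0) else 0) =
      ∑ I ∈ Finset.univ.filter (fun I : Idx n d => Good a I), (if h : Good a I then
        (if p (toVert a ⟨I, h⟩) then W (Set.range I) else 0) else 0) := by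
    refine (Finset.sum_filter_of_ne fun I _ hI => ?_).symm
    by_contra hcon
    exact hI (dif_neg hcon)
  rw [h3, Finset.sum_subtype (Finset.univ.filter fun I : Idx n d => Good a I)
    (p := fun I => Good a I) (fun I => by simp)]
  refine Finset.sum_congr rfl fun B _ => ?_
  rw [dif_pos B.2]
  change Set.indicator {v : Vert a | p v} (fun v => W (tightSet a v)) (toVert a B) = _
  rw [Set.indicator_apply, tightSet_toVert hs]
  rfl

open Classical in
/-- The total weight. -/
theorem tsum_vert {a : Fin n → Fin d → ℝ} (hs : Simple a) (W : Set (Fin n) → ℝ≥0∞) :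
    ∑' v : Vert a, W (tightSet a v) =
      ∑ I : Idx n d, if Good a I then W (Set.range I) else 0 := by
  have h1 := tsum_pred hs W (fun _ => True)
  have h2 : ∑' v : {v : Vert a // True}, W (tightSet a v.1) = ∑' v : Vert a, W (tightSet a v) := by
    refine (tsum_subtype {v : Vert a | True} fun v => W (tightSet a v)).trans ?_
    refine tsum_congr fun v => ?_
    rw [Set.indicator_apply]
    simp
  rw [← h2, h1]
  refine Finset.sum_congr rfl fun I _ => ?_
  by_cases h : Good a I
  · rw [dif_pos h, if_pos h, if_pos trivial]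
  · rw [dif_neg h, if_neg h]

open Classical in
/-- The pointwise estimate with weights. -/
theorem weight_le_of (c : Fin n → Fin d → ℝ) (G : Finset (Fin n)) {a : Fin n → Fin d → ℝ}
    (hs : Simple a) (W : Set (Fin n) → ℝ≥0∞) {A Rg ρ₁ T L R M D : ℝ} (hd : 1 ≤ d)
    (hA : ∀ i, n2 (c i) + Rg ≤ A) (hT : 0 < T) (hR : 0 < R)
    (hL : T * (d * R + 1) ≤ L) (hM0 : 0 < M)
    (hM : T * (d * R + L * G.card * A) ≤ M) (hD : 0 < D)
    (hhits : (∀ i, n2 (a i) ≤ A) → ∀ I : Idx n d,
      ∫⁻ X in {X : Fin d → ℝ | ‖X‖ ≤ R}, (hits a (cI a I) M (X + L • aG a G) : ℝ≥0∞) ≤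
        fluxSum a G I A L M R) :
    ∑' v : Vert a, W (tightSet a v) ≤ ballWeight a W D +
      ∑ I : Idx n d, W (Set.range I) * ((if Good a I ∧ ¬ Reg c a G I Rg ρ₁ T then 1 else 0) +
        (if Reg c a G I Rg ρ₁ T then
          fluxSum a G I A L M R / (ENNReal.ofReal D * cubeVol d R) else 0)) := by
  rw [tsum_vert hs]
  by_cases hreg : ∃ I, Reg c a G I Rg ρ₁ T
  swap
  · push Not at hreg
    refine le_trans ?_ le_add_self
    refine Finset.sum_le_sum fun I _ => ?_
    by_cases h : Good a I
    · rw [if_pos h, if_pos ⟨h, hreg I⟩, mul_add, mul_one]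
      exact le_self_add
    · rw [if_neg h]
      exact bot_le
  obtain ⟨I₀, h₀⟩ := hreg
  have ha : ∀ i, n2 (a i) ≤ A := fun i => by
    have h1 := n2_add_le (a i - c i) (c i)
    rw [sub_add_cancel] at h1
    linarith [h₀.near i, hA i]
  have hG := h₀.spans
  have hL0 : 0 ≤ L := le_trans (by positivity) hL
  have hDne : ENNReal.ofReal D ≠ 0 := (ENNReal.ofReal_pos.2 hD).ne'
  have hv0 : cubeVol d R ≠ 0 := cubeVol_ne_zero hR
  have hvt : cubeVol d R ≠ ⊤ := cubeVol_ne_top R
  obtain ⟨q, hq⟩ : ∃ q : Fin d → ℝ, q = L • aG a G := ⟨_, rfl⟩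
  have hCm : MeasurableSet {X : Fin d → ℝ | ‖X‖ ≤ R} := by
    rw [cube_eq]
    exact Metric.isClosed_closedBall.measurableSet
  -- for almost every objective
  have key : ∀ᵐ X ∂(volume.restrict {X : Fin d → ℝ | ‖X‖ ≤ R}),
      (∑ I : Idx n d, if Good a I then W (Set.range I) else 0) ≤ ballWeight a W D +
        ∑ I : Idx n d, W (Set.range I) *
          ((if Good a I ∧ ¬ Reg c a G I Rg ρ₁ T then 1 else 0) +
          (if Reg c a G I Rg ρ₁ T then
            (hits a (cI a I) M (X + q) : ℝ≥0∞) * (ENNReal.ofReal D)⁻¹ else 0)) := by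
    have hgen : ∀ᵐ X ∂(volume : Measure (Fin d → ℝ)),
        ∀ I : Idx n d, Generic a (cI a I) (X + q) :=
      ae_all_iff.2 fun I => ae_generic hd a (cI a I) q
    filter_upwards [ae_restrict_of_ae hgen, ae_restrict_mem hCm] with X hX hXR
    have hb : ∀ (I : Idx n d), ∀ μ ∈ Set.Icc (0 : ℝ) M, ∀ x : Fin d → ℝ,
        (∀ i, a i ⬝ᵥ x ≤ 1) →
        (X + q + μ • cI a I) ⬝ᵥ x ≤ (2 * L * G.card + M * d) - n2 x := by
      intro I μ hμ x hx
      have h1 := obj_dot_le (I := I) (μ := μ) hT hR.le hL hG hXR hμ.1 hx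
      have h2 : X + obj a G I L μ = X + q + μ • cI a I := by
        rw [hq]
        unfold obj
        abel
      rw [h2] at h1
      have h3 : μ * (d : ℝ) ≤ M * d := mul_le_mul_of_nonneg_right hμ.2 (Nat.cast_nonneg d)
      linarith
    obtain ⟨B₀, hB₀, hc₀⟩ := exists_good_cone hd (K := 2 * L * G.card + M * d) (fun x hx => by
      have h1 := hb I₀ 0 ⟨le_rfl, hM0.le⟩ x hx
      rwa [zero_smul, add_zero] at h1) (hX I₀)
    obtain ⟨P, hP⟩ : ∃ P : Vert a → Prop, P = fun v =>
        ((graph a).edist (toVert a ⟨B₀, hB₀⟩) v : ℝ≥0∞) ≤ ENNReal.ofReal D := ⟨_, rfl⟩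
    have hball : (∑ I : Idx n d, if h : Good a I then
        (if P (toVert a ⟨I, h⟩) then W (Set.range I) else 0) else 0) ≤ ballWeight a W D := by
      rw [← tsum_pred hs W P, hP]
      exact le_iSup (fun v₀ : Vert a =>
        ∑' v : {v : Vert a // ((graph a).edist v₀ v : ℝ≥0∞) ≤ ENNReal.ofReal D},
          W (tightSet a v.1)) (toVert a ⟨B₀, hB₀⟩)
    refine le_trans ?_ (add_le_add hball le_rfl)
    rw [← Finset.sum_add_distrib]
    refine Finset.sum_le_sum fun I _ => ?_
    by_cases hI : Good a I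
    · rw [if_pos hI, dif_pos hI]
      by_cases hr : Reg c a G I Rg ρ₁ T
      · rw [if_pos hr, if_neg (show ¬ (Good a I ∧ ¬ Reg c a G I Rg ρ₁ T) from fun h => h.2 hr),
          zero_add]
        by_cases hdist : P (toVert a ⟨I, hI⟩)
        · rw [if_pos hdist]
          exact le_self_add
        · rw [if_neg hdist, zero_add]
          refine le_mul_of_one_le_right' ?_
          rw [← div_eq_mul_inv,
            ENNReal.le_div_iff_mul_le (Or.inl hDne) (Or.inl ENNReal.ofReal_ne_top), one_mul]
          have h1 := edist_le_hits hd hs hM0 (hb I) (hX I) ⟨B₀, hB₀⟩ ⟨I, hI⟩ hc₀ (by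
            rw [hq]
            exact inCone_end hL0 hR.le hI.1 ha hr.nu_le hM hXR)
          have h2 : ((graph a).edist (toVert a ⟨B₀, hB₀⟩) (toVert a ⟨I, hI⟩) : ℝ≥0∞) ≤
              ((hits a (cI a I) M (X + q) : ℕ∞) : ℝ≥0∞) := ENat.toENNReal_le.2 h1
          rw [ENat.toENNReal_coe] at h2
          rw [hP] at hdist
          exact (not_le.1 hdist).le.trans h2
      · rw [if_neg hr, if_pos (show Good a I ∧ ¬ Reg c a G I Rg ρ₁ T from ⟨hI, hr⟩), add_zero,
          mul_one]
        exact le_add_self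
    · rw [if_neg hI]
      exact bot_le
  -- average
  have hint := lintegral_mono_ae key
  rw [lintegral_const, Measure.restrict_apply_univ] at hint
  have hmeas : ∀ I : Idx n d, Measurable fun X : Fin d → ℝ =>
      (W (Set.range I) * ((if Good a I ∧ ¬ Reg c a G I Rg ρ₁ T then 1 else 0) +
          (if Reg c a G I Rg ρ₁ T then
            (hits a (cI a I) M (X + q) : ℝ≥0∞) * (ENNReal.ofReal D)⁻¹ else 0)) : ℝ≥0∞) := by
    intro I
    refine (measurable_const.add ?_).const_mul _
    by_cases hr : Reg c a G I Rg ρ₁ T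
    · simp only [if_pos hr]
      exact (measurable_hits a (cI a I) q M).mul_const _
    · simp only [if_neg hr]
      exact measurable_const
  rw [lintegral_add_left measurable_const, lintegral_const, Measure.restrict_apply_univ,
    lintegral_finsetSum _ fun I _ => hmeas I] at hint
  have hI : ∀ I : Idx n d, ∫⁻ X in {X : Fin d → ℝ | ‖X‖ ≤ R},
      (W (Set.range I) * ((if Good a I ∧ ¬ Reg c a G I Rg ρ₁ T then 1 else 0) +
          (if Reg c a G I Rg ρ₁ T then
            (hits a (cI a I) M (X + q) : ℝ≥0∞) * (ENNReal.ofReal D)⁻¹ else 0)) : ℝ≥0∞) ≤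
      (W (Set.range I) * ((if Good a I ∧ ¬ Reg c a G I Rg ρ₁ T then 1 else 0) +
        (if Reg c a G I Rg ρ₁ T then
          fluxSum a G I A L M R / (ENNReal.ofReal D * cubeVol d R) else 0))) * cubeVol d R := by
    intro I
    have hm2 : Measurable fun X : Fin d → ℝ =>
        (((if Good a I ∧ ¬ Reg c a G I Rg ρ₁ T then 1 else 0) +
          (if Reg c a G I Rg ρ₁ T then
            (hits a (cI a I) M (X + q) : ℝ≥0∞) * (ENNReal.ofReal D)⁻¹ else 0)) : ℝ≥0∞) := by
      refine measurable_const.add ?_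
      by_cases hr : Reg c a G I Rg ρ₁ T
      · simp only [if_pos hr]
        exact (measurable_hits a (cI a I) q M).mul_const _
      · simp only [if_neg hr]
        exact measurable_const
    rw [lintegral_const_mul _ hm2, mul_assoc]
    refine mul_le_mul_right ?_ _
    rw [lintegral_add_left measurable_const, lintegral_const, Measure.restrict_apply_univ,
      add_mul]
    refine add_le_add le_rfl ?_
    by_cases hr : Reg c a G I Rg ρ₁ T
    · simp only [if_pos hr]
      rw [lintegral_mul_const _ (measurable_hits a (cI a I) q M), hq, div_eq_mul_inv,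
        ENNReal.mul_inv (Or.inl hDne) (Or.inl ENNReal.ofReal_ne_top), mul_assoc, mul_assoc,
        ENNReal.inv_mul_cancel hv0 hvt, mul_one]
      exact mul_le_mul_left (hhits ha I) _
    · simp only [if_neg hr]
      rw [lintegral_const, zero_mul, zero_mul]
  have hfin := hint.trans (add_le_add le_rfl (Finset.sum_le_sum fun I _ => hI I))
  rw [← Finset.sum_mul] at hfin
  change _ * cubeVol d R ≤ _ * cubeVol d R + _ at hfin
  rw [← add_mul] at hfin
  exact (ENNReal.mul_le_mul_iff_left hv0 hvt).1 hfin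

end Pool.Agent.H.MP_0cad2f_co.helper47
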